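import Pool.Agent.H81.Dense4

namespace Pool.Agent.Results.MP_523900_gt.HalfArea
open Set MeasureTheory Filter Topology H81Dense
open scoped ENNReal

theorem result (K : Set (EuclideanSpace ℝ (Fin 3))) (hK : IsCompact K) (hc : Convex ℝ K)
    (hi : (interior K).Nonempty) :
    μHE[2] (frontier K) ≠ ∞ ∧
      Tendsto (fun ε : ℝ => ENNReal.ofReal ε * L (frontier K) ε) (𝓝[>] 0)
        (𝓝 (μHE[2] (frontier K) / 2)) := by
  obtain ⟨G, hG⟩ := nice_frontier hK hc hi
  exact ⟨hG.finite, hG.tendsto⟩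

end Pool.Agent.Results.MP_523900_gt.HalfArea
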